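import Pool.Agent.QSN.StmtsB

set_option autoImplicit false

/-! Row CEN of squad QSN (MP_dc0713_gt), part B1: central elements and the commutator. -/

namespace Pool.Agent.QSN.H4

open Matrix Finset Pool.Agent.QSX Pool.Agent.QSN

section

variable {m : ℕ}

/-- `exp (x + y) = exp x exp y` for commuting matrices, as units. -/
theorem ue_add {x y : Matrix (Fin m) (Fin m) ℝ} (hx : SU x) (hy : SU y) (h : x * y = y * x) :
    ue (x + y) = ue x * ue y := by
  apply Units.ext
  rw [Units.val_mul, ue_val hx, ue_val hy, ue_val (hx.add hy)]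
  exact mexp_add hx hy h

/-- The unit `exp 0`. -/
theorem ue_zero : (ue (0 : Matrix (Fin m) (Fin m) ℝ)) = 1 := by
  apply Units.ext
  rw [ue_val SU.zero, mexp_zero, Units.val_one]

/-- Products of exponentials of commuting matrices. -/
theorem ue_list {τ : Type} (x : τ → Matrix (Fin m) (Fin m) ℝ) (L : List τ)
    (h1 : ∀ t ∈ L, SU (x t)) (h2 : ∀ t ∈ L, ∀ t' ∈ L, x t * x t' = x t' * x t) :
    SU ((L.map x).sum) ∧ (L.map fun t => ue (x t)).prod = ue ((L.map x).sum) ∧
      ∀ y : Matrix (Fin m) (Fin m) ℝ, (∀ t ∈ L, x t * y = y * x t) →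
        (L.map x).sum * y = y * (L.map x).sum := by
  induction L with
  | nil => simpa using ⟨SU.zero, ue_zero.symm⟩
  | cons a L ih =>
    obtain ⟨i1, i2, i3⟩ := ih (fun t ht => h1 t (List.mem_cons_of_mem _ ht))
      (fun t ht t' ht' => h2 t (List.mem_cons_of_mem _ ht) t' (List.mem_cons_of_mem _ ht'))
    have ha : SU (x a) := h1 a List.mem_cons_self
    refine ⟨?_, ?_, ?_⟩
    · rw [List.map_cons, List.sum_cons]
      exact ha.add i1
    · rw [List.map_cons, List.prod_cons, i2, List.map_cons, List.sum_cons, ue_add ha i1]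
      exact (i3 (x a) fun t ht => h2 t (List.mem_cons_of_mem _ ht) a List.mem_cons_self).symm
    · intro y hy
      rw [List.map_cons, List.sum_cons, add_mul, mul_add, hy a List.mem_cons_self,
        i3 y fun t ht => hy t (List.mem_cons_of_mem _ ht)]

end

/-- The top elements of the commutator formula are central. -/
theorem top_central (tpr : TprStmt) (X : Dat) (hX : MS X) (H : Grd hX) (k : Fin H.D) :
    ∀ t ∈ hX.L (H.l k) (H.m k), t.2.1 = 1 ∧ t.2.2.1 = 1 ∧
      ∀ x ∈ X.n, hX.e t.1 * x = x * hX.e t.1 := by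
  intro t ht
  obtain ⟨-, c2, c3⟩ := tpr X hX
  obtain ⟨hp, hq, hr⟩ := c3 (H.l k) (H.m k) (H.ne k) (H.top k) t ht
  refine ⟨hp, hq, c2 t.1 ?_⟩
  rw [(hX.L_comp _ _ t ht).1]
  exact hr

/-- The vector `w_k` as a sum over the list. -/
theorem w_eq (brn : BrnStmt) (tpr : TprStmt) (X : Dat) (hX : MS X) (H : Grd hX) (k : Fin H.D) :
    H.w k = ((hX.L (H.l k) (H.m k)).map fun t => ((t.2.2.2 : ℚ) : ℝ) • hX.e t.1).sum := by
  unfold Grd.w
  rw [brn X hX _ _ (H.ne k)]
  unfold MS.br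
  rw [List.filter_eq_self.2]
  intro t ht
  obtain ⟨hp, hq, -⟩ := top_central tpr X hX H k t ht
  simp [hp, hq]

/-- The vector `w_k` is central. -/
theorem w_central (brn : BrnStmt) (tpr : TprStmt) (X : Dat) (hX : MS X) (H : Grd hX)
    (k : Fin H.D) : H.w k ∈ X.n ∧ ∀ x ∈ X.n, H.w k * x = x * H.w k := by
  refine ⟨X.lie _ (hX.e_mem _) _ (hX.e_mem _), ?_⟩
  intro x hx
  rw [w_eq brn tpr X hX H k]
  have h2 : ∀ t ∈ hX.L (H.l k) (H.m k), ∀ x ∈ X.n,
      (((t.2.2.2 : ℚ) : ℝ) • hX.e t.1) * x = x * (((t.2.2.2 : ℚ) : ℝ) • hX.e t.1) := by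
    intro t ht x hx
    rw [smul_mul_assoc, mul_smul_comm, (top_central tpr X hX H k t ht).2.2 x hx]
  refine (ue_list (fun t : hX.ι × ℕ × ℕ × ℚ => ((t.2.2.2 : ℚ) : ℝ) • hX.e t.1)
    (hX.L (H.l k) (H.m k)) ?_ ?_).2.2 x ?_
  · intro t _
    exact (hX.su_e _).smul _
  · intro t ht t' _
    exact h2 t ht _ (X.n.smul_mem _ (hX.e_mem _))
  · intro t ht
    exact h2 t ht x hx

/-- **CEN**. -/
theorem cen (brn : BrnStmt) (tpr : TprStmt) : CenStmt := by
  intro X hX H
  have hw := w_central brn tpr X hX H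
  have hs : ∀ z : Fin H.D → ℝ, (∑ k, z k • H.w k) ∈ X.n := fun z =>
    Submodule.sum_mem _ fun k _ => X.n.smul_mem _ (hw k).1
  have hc : ∀ z : Fin H.D → ℝ, ∀ x ∈ X.n,
      (∑ k, z k • H.w k) * x = x * (∑ k, z k • H.w k) := by
    intro z x hx
    rw [Finset.sum_mul, Finset.mul_sum]
    refine Finset.sum_congr rfl fun k _ => ?_
    rw [smul_mul_assoc, mul_smul_comm, (hw k).2 x hx]
  refine ⟨hw, ?_, ?_, ?_⟩
  · intro k y
    have h := hX.com (H.l k) (H.m k) (H.ne k) 1 y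
    rw [one_smul] at h
    rw [h]
    have h1 : ((hX.L (H.l k) (H.m k)).map fun t =>
        ue (((t.2.2.2 : ℝ) * 1 ^ t.2.1 * y ^ t.2.2.1) • hX.e t.1)) =
        (hX.L (H.l k) (H.m k)).map fun t => ue (((t.2.2.2 : ℝ) * y) • hX.e t.1) := by
      refine List.map_congr_left fun t ht => ?_
      obtain ⟨hp, hq, -⟩ := top_central tpr X hX H k t ht
      rw [hp, hq, pow_one, pow_one, mul_one]
    rw [h1, (ue_list (fun t : hX.ι × ℕ × ℕ × ℚ => ((t.2.2.2 : ℝ) * y) • hX.e t.1)
      (hX.L (H.l k) (H.m k)) ?_ ?_).2.1]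
    · congr 1
      rw [w_eq brn tpr X hX H k, List.smul_sum, List.map_map]
      congr 1
      refine List.map_congr_left fun t _ => ?_
      rw [Function.comp_apply, smul_smul, mul_comm]
    · intro t _
      exact (hX.su_e _).smul _
    · intro t ht t' _
      have h3 := (top_central tpr X hX H k t ht).2.2 _
        (X.n.smul_mem ((t'.2.2.2 : ℝ) * y) (hX.e_mem t'.1))
      rw [smul_mul_assoc, h3, mul_smul_comm]
  · intro z z'
    unfold Grd.u
    have h1 : (∑ k, (z + z') k • H.w k) = (∑ k, z k • H.w k) + ∑ k, z' k • H.w k := by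
      rw [← Finset.sum_add_distrib]
      refine Finset.sum_congr rfl fun k _ => ?_
      rw [Pi.add_apply, add_smul]
    rw [h1]
    exact ue_add (X.su _ (hs z)) (X.su _ (hs z')) (hc z _ (hs z'))
  · intro z x hx
    unfold Grd.u
    rw [← ue_add (X.su _ (hs z)) (X.su _ hx) (hc z x hx), add_comm,
      ue_add (X.su _ hx) (X.su _ (hs z)) (hc z x hx).symm]

end Pool.Agent.QSN.H4
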